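import Pool.Agent.Lib.MP_100a6c_lc.IfaceB

/-!
# Module CL1: a monotone system of members of a club
-/

universe u

open Cardinal

namespace Pool.Agent.Lib.MP_100a6c_lc.H47

open Pool.Agent.Lib.MP_100a6c_lc BName

variable {B : Type u} [CompleteBooleanAlgebra B] {I : Type u}

/-- The index type of the recursion step. -/
abbrev Idx (F : Finset I) : Type u := {i // i ∈ F} ⊕ {t : Finset I // t ⊂ F ∧ t.Nonempty}

/-- The family whose union is covered in the recursion step. -/
def fam (A : I → BName B) (F : Finset I) (p : ∀ t, t ⊂ F → BName B) : Idx F → BName B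
  | Sum.inl i => upr (A i.1) (A i.1)
  | Sum.inr t => p t.1 t.2.1

/-- The union of the family. -/
def wn (A : I → BName B) (F : Finset I) (p : ∀ t, t ⊂ F → BName B) : BName B :=
  uni (fam A F p) (fun _ => ⊤)

theorem mem_wn (A : I → BName B) (F : Finset I) (p : ∀ t, t ⊂ F → BName B) (z : BName B) :
    bmem z (wn A F p) = ⨆ j, bmem z (fam A F p j) := by
  rw [wn, mem_uni]
  exact iSup_congr fun j => top_inf_eq _

open Classical in
/-- The recursion step. -/
noncomputable def nxt (Γ : B) (C : BName B) (A : I → BName B) (F : Finset I)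
    (p : ∀ t, t ⊂ F → BName B) : BName B :=
  if h : ∃ x, Γ ≤ bmem x C ⊓ (VB B).sub (wn A F p) x then h.choose else nil

theorem nxt_spec {Γ : B} {C : BName B} {A : I → BName B} {F : Finset I}
    {p : ∀ t, t ⊂ F → BName B} (h : ∃ x, Γ ≤ bmem x C ⊓ (VB B).sub (wn A F p) x) :
    Γ ≤ bmem (nxt Γ C A F p) C ⊓ (VB B).sub (wn A F p) (nxt Γ C A F p) := by
  unfold nxt
  rw [dif_pos h]
  exact h.choose_spec

/-- The system. -/
noncomputable def cl (Γ : B) (C : BName B) (A : I → BName B) : Finset I → BName B :=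
  Finset.strongInduction (nxt Γ C A)

theorem cl_eq (Γ : B) (C : BName B) (A : I → BName B) (F : Finset I) :
    cl Γ C A F = nxt Γ C A F (fun t _ => cl Γ C A t) := Finset.strongInduction_eq _ _

theorem exists_next {c : Cardinal.{u}} (hc : ℵ₀ ≤ c) {Γ : B} {H C : BName B} {A : I → BName B}
    (hA : ∀ i, Γ ≤ bmem (A i) H) (hC : Γ ≤ (VB B).isClub C H (check (Mu c))) (F : Finset I)
    (p : ∀ t, t ⊂ F → BName B) (hp : ∀ t ht, t.Nonempty → Γ ≤ bmem (p t ht) C) :
    ∃ x, Γ ≤ bmem x C ⊓ (VB B).sub (wn A F p) x := by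
  have hC1 := (hC.trans inf_le_left).trans inf_le_left
  have hC2 := (hC.trans inf_le_left).trans inf_le_right
  have hmem : ∀ t ht, t.Nonempty →
      Γ ≤ (VB B).sub (p t ht) H ⊓ (VB B).leCard (p t ht) (check (Mu c)) := fun t ht hn =>
    iInf_himp_apply hC1 _ le_rfl (hp t ht hn)
  have hsub : Γ ≤ (VB B).sub (wn A F p) H := by
    refine le_iInf fun z => ?_
    rw [le_himp_iff, VB_mem, VB_mem, mem_wn, inf_iSup_eq]
    refine iSup_le fun j => ?_
    rcases j with i | t
    · change Γ ⊓ bmem z (upr (A i.1) (A i.1)) ≤ _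
      rw [mem_upr, sup_idem]
      exact (ext_mem_left H).of_le' (x := A i.1) inf_le_right (inf_le_left.trans (hA i.1))
    · exact sub_apply ((hmem t.1 t.2.1 t.2.2).trans inf_le_left) z inf_le_left inf_le_right
  have hcard : Γ ≤ (VB B).leCard (wn A F p) (check (Mu c)) := by
    obtain ⟨K, hK⟩ : ∃ K : Type u, #K = Order.succ c := ⟨_, Cardinal.mk_out _⟩
    have h1 : ∀ t : {t : Finset I // t ⊂ F ∧ t.Nonempty},
        ∃ e : K → BName B, Enum Γ (p t.1 t.2.1) e := fun t =>
      exists_enum_type hK ((hmem t.1 t.2.1 t.2.2).trans inf_le_right)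
    choose e he using h1
    let t : Idx F × K → BName B := fun y =>
      Sum.elim (fun i => A i.1) (fun s => e s y.2) y.1
    have hK0 : Nonempty K := by
      rw [← mk_ne_zero_iff, hK]
      exact (Order.succ_ne_bot c)
    obtain ⟨k0⟩ := hK0
    refine le_leCard_of_enum (t := t) (Order.succ c) ?_ ?_
    · have hfin : Finite {t : Finset I // t ⊂ F ∧ t.Nonempty} :=
        Finite.of_injective (fun t => (⟨t.1, Finset.mem_powerset.2 t.2.1.subset⟩ :
          {s // s ∈ F.powerset})) (by
          intro s s' h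
          exact Subtype.ext (congrArg (fun x => x.1) h))
      have h2 : #(Idx F) ≤ Order.succ c :=
        (lt_aleph0_of_finite _).le.trans (hc.trans (Order.le_succ c))
      rw [mk_prod, lift_id, lift_id, hK]
      exact mul_le_of_le (hc.trans (Order.le_succ c)) h2 le_rfl
    · intro z
      rw [mem_wn, inf_iSup_eq]
      refine iSup_le fun j => ?_
      rcases j with i | s
      · change Γ ⊓ bmem z (upr (A i.1) (A i.1)) ≤ _
        rw [mem_upr, sup_idem]
        exact inf_le_right.trans (le_iSup (fun y => beq z (t y)) (Sum.inl i, k0))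
      · exact (he s z).trans (iSup_le fun k => le_iSup (fun y => beq z (t y)) (Sum.inr s, k))
  exact exists_wit ((ext_mem_left C).inf (ext_sub_right (wn A F p)))
    (iInf_himp_apply hC2 (wn A F p) le_rfl (le_inf hsub hcard))

theorem cl_spec {c : Cardinal.{u}} (hc : ℵ₀ ≤ c) {Γ : B} {H C : BName B} {A : I → BName B}
    (hA : ∀ i, Γ ≤ bmem (A i) H) (hC : Γ ≤ (VB B).isClub C H (check (Mu c))) (F : Finset I) :
    Γ ≤ bmem (cl Γ C A F) C ⊓ (VB B).sub (wn A F (fun t _ => cl Γ C A t)) (cl Γ C A F) := by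
  induction F using Finset.strongInduction with
  | H F ih =>
    have h1 := nxt_spec (exists_next hc hA hC F (fun t _ => cl Γ C A t)
      (fun t ht _ => (ih t ht).trans inf_le_left))
    rw [← cl_eq] at h1
    exact h1

/-- Module CL1. -/
theorem cl1 : CL1Statement.{u} := by
  intro B _ c hc Γ H C I A hA hC
  have hs := cl_spec hc hA hC
  refine ⟨cl Γ C A, ⟨fun F _ => (hs F).trans inf_le_left, fun F i hi => ?_, fun F F' hF hFF' => ?_⟩⟩
  · refine sub_apply ((hs F).trans inf_le_right) (A i) le_rfl ?_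
    rw [mem_wn]
    refine le_iSup_of_le (Sum.inl ⟨i, hi⟩) ?_
    change Γ ≤ bmem (A i) (upr (A i) (A i))
    rw [mem_upr, beq_refl, top_sup_eq]
    exact le_top
  · rcases hFF'.eq_or_ssubset with rfl | h
    · exact le_iInf fun z => by rw [le_himp_iff]; exact inf_le_right
    · refine le_iInf fun z => ?_
      rw [le_himp_iff]
      refine sub_apply ((hs F').trans inf_le_right) z inf_le_left ?_
      rw [mem_wn]
      exact inf_le_right.trans (le_iSup (fun j => bmem z (fam A F' (fun t _ => cl Γ C A t) j))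
        (Sum.inr ⟨F, h, hF⟩))

end Pool.Agent.Lib.MP_100a6c_lc.H47
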